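import Pool.Agent.H175G.Frame0

/-! T03: the bipartite case. -/

namespace Pool.Agent.H837R2.GP

open Finset Classical
open Pool.Agent.H175R2 (DT nt on cpt Cn P4Free mem_on nt_le_of_label)
open Pool.Agent.H175G

/-- sets of the same size which differ pairwise by one element are at distance one from a set -/
theorem comb {V : Type} (X : Finset V) (r : V → Finset V) (t : ℕ) (hr : ∀ m ∈ X, (r m).card = t)
    (hd : ∀ m ∈ X, ∀ m' ∈ X, (r m \ r m').card ≤ 1) :
    ∃ S : Finset V, ∀ m ∈ X, (symmDiff (r m) S).card ≤ 1 := by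
  by_cases h : ∀ m ∈ X, ∀ m' ∈ X, r m = r m'
  · rcases X.eq_empty_or_nonempty with rfl | ⟨m0, hm0⟩
    · exact ⟨∅, fun m hm => by simp at hm⟩
    · refine ⟨r m0, fun m hm => ?_⟩
      rw [h m hm m0 hm0, symmDiff_self]
      simp
  push Not at h
  obtain ⟨m1, hm1, m2, hm2, hne⟩ := h
  have c1 := hr m1 hm1
  have c2 := hr m2 hm2
  have hA12 : (r m1 \ r m2).card = 1 := by
    have h1 := hd m1 hm1 m2 hm2
    have h2 : (r m1 \ r m2).card ≠ 0 := by
      intro h0
      rw [card_eq_zero, sdiff_eq_empty_iff_subset] at h0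
      exact hne (eq_of_subset_of_card_le h0 (by rw [c1, c2]))
    omega
  have hB : (r m1 ∩ r m2).card + 1 = t := by
    have := card_sdiff_add_card_inter (r m1) (r m2)
    omega
  have hU : (r m1 ∪ r m2).card = t + 1 := by
    have := card_union_add_card_inter (r m1) (r m2)
    omega
  by_cases h1 : ∀ m ∈ X, r m1 ∩ r m2 ⊆ r m
  · refine ⟨r m1 ∩ r m2, fun m hm => ?_⟩
    have h2 : symmDiff (r m) (r m1 ∩ r m2) = r m \ (r m1 ∩ r m2) := by
      rw [symmDiff_def, sup_eq_union, sdiff_eq_empty_iff_subset.2 (h1 m hm), union_empty]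
    rw [h2, card_sdiff_of_subset (h1 m hm), hr m hm]
    omega
  · push Not at h1
    obtain ⟨m3, hm3, h3⟩ := h1
    rw [not_subset] at h3
    obtain ⟨b, hb, hb3⟩ := h3
    rw [mem_inter] at hb
    have c3 := hr m3 hm3
    have hsub : ∀ m ∈ X, b ∈ r m → ∀ z ∈ r m, z ≠ b → z ∈ r m3 := by
      intro m hm hbm z hz hzb
      by_contra hz3
      have h4 := hd m hm m3 hm3
      rw [card_le_one] at h4
      exact hzb (h4 z (mem_sdiff.2 ⟨hz, hz3⟩) b (mem_sdiff.2 ⟨hbm, hb3⟩))
    have hUe : (r m1 ∪ r m2).erase b ⊆ r m3 := by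
      intro z hz
      rw [mem_erase, mem_union] at hz
      rcases hz.2 with h | h
      · exact hsub m1 hm1 hb.1 z h hz.1
      · exact hsub m2 hm2 hb.2 z h hz.1
    have hbU : b ∈ r m1 ∪ r m2 := mem_union_left _ hb.1
    have hEq : (r m1 ∪ r m2).erase b = r m3 := by
      apply eq_of_subset_of_card_le hUe
      rw [card_erase_of_mem hbU, hU, c3]
      omega
    have hall : ∀ m ∈ X, r m ⊆ r m1 ∪ r m2 := by
      intro m hm y hy
      by_contra hyU
      rw [mem_union, not_or] at hyU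
      have hy3 : y ∉ r m3 := by
        intro h
        rw [← hEq] at h
        rcases mem_union.1 (mem_of_mem_erase h) with h | h
        · exact hyU.1 h
        · exact hyU.2 h
      have hs : ∀ m' ∈ X, y ∉ r m' → ∀ z ∈ r m, z ≠ y → z ∈ r m' := by
        intro m' hm' hy' z hz hzy
        by_contra hz'
        have h4 := hd m hm m' hm'
        rw [card_le_one] at h4
        exact hzy (h4 z (mem_sdiff.2 ⟨hz, hz'⟩) y (mem_sdiff.2 ⟨hy, hy'⟩))
      have h5 : (r m).erase y ⊆ (r m1 ∩ r m2).erase b := by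
        intro z hz
        rw [mem_erase] at hz
        rw [mem_erase, mem_inter]
        refine ⟨?_, hs m1 hm1 hyU.1 z hz.2 hz.1, hs m2 hm2 hyU.2 z hz.2 hz.1⟩
        rintro rfl
        exact hb3 (hs m3 hm3 hy3 z hz.2 hz.1)
      have h6 := card_le_card h5
      rw [card_erase_of_mem hy, card_erase_of_mem (mem_inter.2 hb), hr m hm] at h6
      have h7 : 0 < (r m1 ∩ r m2).card := card_pos.2 ⟨b, mem_inter.2 hb⟩
      omega
    refine ⟨r m1 ∪ r m2, fun m hm => ?_⟩
    have h2 : symmDiff (r m) (r m1 ∪ r m2) = (r m1 ∪ r m2) \ r m := by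
      rw [symmDiff_def, sup_eq_union, sdiff_eq_empty_iff_subset.2 (hall m hm), empty_union]
    rw [h2, card_sdiff_of_subset (hall m hm), hU, hr m hm]
    omega

section
variable {V : Type} (G : SimpleGraph V) (M N : Finset V)

/-- the level function -/
noncomputable def lev (x : V) : ℕ :=
  if x ∈ M then (nb G N x).card else sInf {k | ∃ m ∈ M, G.Adj m x ∧ (nb G N m).card = k}

variable {G M N}

theorem lev_M {m : V} (hm : m ∈ M) : lev G M N m = (nb G N m).card := by
  unfold lev; rw [if_pos hm]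

theorem lev_le (hd : Disjoint M N) {n m : V} (hn : n ∈ N) (hm : m ∈ M) (h : G.Adj m n) :
    lev G M N n ≤ lev G M N m := by
  rw [lev_M hm]
  unfold lev
  rw [if_neg (fun h => disjoint_left.1 hd h hn)]
  exact Nat.sInf_le ⟨m, hm, h, rfl⟩

theorem lev_ex (hd : Disjoint M N) {n : V} (hn : n ∈ N) (h : ∃ m ∈ M, G.Adj m n) :
    ∃ m ∈ M, G.Adj m n ∧ lev G M N m = lev G M N n := by
  have h1 : {k | ∃ m ∈ M, G.Adj m n ∧ (nb G N m).card = k}.Nonempty := by
    obtain ⟨m, hm, h⟩ := h
    exact ⟨_, m, hm, h, rfl⟩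
  obtain ⟨m, hm, h2, h3⟩ := Nat.sInf_mem h1
  refine ⟨m, hm, h2, ?_⟩
  rw [lev_M hm, h3]
  unfold lev
  rw [if_neg (fun h => disjoint_left.1 hd h hn)]

theorem row_sub (hrow : ∀ m ∈ M, ∀ m' ∈ M, 2 ≤ (nb G N m \ nb G N m').card →
    nb G N m' ⊆ nb G N m) {m m' : V} (hm : m ∈ M) (hm' : m' ∈ M)
    (h : (nb G N m).card < (nb G N m').card) : nb G N m ⊆ nb G N m' := by
  by_contra hcon
  apply hcon
  apply hrow m' hm' m hm
  have h1 : 1 ≤ (nb G N m \ nb G N m').card := by
    rw [Nat.one_le_iff_ne_zero, Ne, card_eq_zero, sdiff_eq_empty_iff_subset]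
    exact hcon
  have h2 := card_sdiff_add_card_inter (nb G N m) (nb G N m')
  have h3 := card_sdiff_add_card_inter (nb G N m') (nb G N m)
  rw [inter_comm] at h3
  omega

theorem lev_key (hd : Disjoint M N) (hrow : ∀ m ∈ M, ∀ m' ∈ M,
    2 ≤ (nb G N m \ nb G N m').card → nb G N m' ⊆ nb G N m) {n m : V} (hn : n ∈ N)
    (hex : ∃ m ∈ M, G.Adj m n) (hm : m ∈ M) (h : lev G M N n < lev G M N m) : G.Adj m n := by
  obtain ⟨m0, hm0, h1, h2⟩ := lev_ex hd hn hex
  rw [← h2, lev_M hm0, lev_M hm] at h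
  have h3 := row_sub hrow hm0 hm h
  exact (mem_nb.1 (h3 (mem_nb.2 ⟨hn, h1⟩))).2

theorem on_prefix (hd : Disjoint M N) (hM : Ind G M) (hN : Ind G N) (hrow : ∀ m ∈ M, ∀ m' ∈ M,
    2 ≤ (nb G N m \ nb G N m').card → nb G N m' ⊆ nb G N m) (t : ℕ) (x : V)
    (hx : x ∈ (M ∪ N).filter (fun x => lev G M N x ≤ t))
    (hne : on G (M ∪ N) ((M ∪ N).filter (fun x => lev G M N x ≤ t)) x ≠ ∅) :
    on G (M ∪ N) ((M ∪ N).filter (fun x => lev G M N x ≤ t)) x =
      M.filter (fun z => t < lev G M N z) := by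
  obtain ⟨z, hz⟩ := nonempty_iff_ne_empty.2 hne
  rw [mem_on] at hz
  obtain ⟨⟨hzR, hzP⟩, hxz⟩ := hz
  rw [mem_filter] at hx
  have hzt : t < lev G M N z := by
    by_contra h
    exact hzP (mem_filter.2 ⟨hzR, not_lt.1 h⟩)
  have hxN : x ∈ N := by
    rcases mem_union.1 hx.1 with h | h
    · exfalso
      rcases mem_union.1 hzR with h' | h'
      · exact hM x h z h' hxz
      · have := lev_le hd h' h hxz
        omega
    · exact h
  have hex : ∃ m ∈ M, G.Adj m x := by
    rcases mem_union.1 hzR with h' | h'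
    · exact ⟨z, h', hxz.symm⟩
    · exact absurd hxz (hN x hxN z h')
  ext w
  rw [mem_on, mem_filter, mem_filter]
  constructor
  · rintro ⟨⟨h1, h2⟩, h3⟩
    have hw : w ∈ M := by
      rcases mem_union.1 h1 with h | h
      · exact h
      · exact absurd h3 (hN x hxN w h)
    refine ⟨hw, ?_⟩
    by_contra h
    exact h2 ⟨h1, not_lt.1 h⟩
  · rintro ⟨h1, h2⟩
    refine ⟨⟨mem_union_left _ h1, fun h => by omega⟩, ?_⟩
    exact (lev_key hd hrow hxN hex h1 (by omega)).symm

theorem on_level_M (hd : Disjoint M N) (hM : Ind G M) (hrow : ∀ m ∈ M, ∀ m' ∈ M,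
    2 ≤ (nb G N m \ nb G N m').card → nb G N m' ⊆ nb G N m) (t : ℕ) (x : V)
    (hxM : x ∈ M) (hxt : lev G M N x = t) :
    on G (M ∪ N) ((M ∪ N).filter (fun x => lev G M N x = t)) x =
      N.filter (fun z => lev G M N z < t ∧ ∃ m ∈ M, G.Adj m z) := by
  ext w
  rw [mem_on, mem_filter, mem_filter]
  constructor
  · rintro ⟨⟨h1, h2⟩, h3⟩
    have hw : w ∈ N := by
      rcases mem_union.1 h1 with h | h
      · exact absurd h3 (hM x hxM w h)
      · exact h
    refine ⟨hw, ?_, x, hxM, h3⟩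
    have h4 := lev_le hd hw hxM h3
    have h5 : lev G M N w ≠ t := fun h => h2 ⟨h1, h⟩
    omega
  · rintro ⟨h1, h2, h3⟩
    refine ⟨⟨mem_union_right _ h1, fun h => by omega⟩, ?_⟩
    exact lev_key hd hrow h1 h3 hxM (by omega)

theorem on_level_N (hd : Disjoint M N) (hN : Ind G N) (hrow : ∀ m ∈ M, ∀ m' ∈ M,
    2 ≤ (nb G N m \ nb G N m').card → nb G N m' ⊆ nb G N m) (t : ℕ) (x : V)
    (hxN : x ∈ N) (hxt : lev G M N x = t)
    (hne : on G (M ∪ N) ((M ∪ N).filter (fun x => lev G M N x = t)) x ≠ ∅) :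
    on G (M ∪ N) ((M ∪ N).filter (fun x => lev G M N x = t)) x =
      M.filter (fun z => t < lev G M N z) := by
  obtain ⟨z, hz⟩ := nonempty_iff_ne_empty.2 hne
  rw [mem_on] at hz
  obtain ⟨⟨hzR, hzP⟩, hxz⟩ := hz
  have hex : ∃ m ∈ M, G.Adj m x := by
    rcases mem_union.1 hzR with h' | h'
    · exact ⟨z, h', hxz.symm⟩
    · exact absurd hxz (hN x hxN z h')
  ext w
  rw [mem_on, mem_filter, mem_filter]
  constructor
  · rintro ⟨⟨h1, h2⟩, h3⟩
    have hw : w ∈ M := by
      rcases mem_union.1 h1 with h | h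
      · exact h
      · exact absurd h3 (hN x hxN w h)
    refine ⟨hw, ?_⟩
    have h4 := lev_le hd hxN hw h3.symm
    have h5 : lev G M N w ≠ t := fun h => h2 ⟨h1, h⟩
    omega
  · rintro ⟨h1, h2⟩
    refine ⟨⟨mem_union_left _ h1, fun h => by omega⟩, ?_⟩
    exact (lev_key hd hrow hxN hex h1 (by omega)).symm

end

/-- the blocks inside a level -/
noncomputable def bl {V : Type} (G : SimpleGraph V) (M N S : Finset V) (x : V) : V ⊕ V :=
  if x ∈ M then (if h : ∃ y, symmDiff (nb G N x) S = {y} then Sum.inl h.choose else Sum.inr x)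
  else Sum.inl x

theorem bl_N {V : Type} {G : SimpleGraph V} {M N S : Finset V} (hd : Disjoint M N) {x : V}
    (hx : x ∈ N) : bl G M N S x = Sum.inl x := by
  unfold bl
  rw [if_neg (fun h => disjoint_left.1 hd h hx)]

theorem bl_M {V : Type} {G : SimpleGraph V} {M N S : Finset V} {x y : V}
    (hx : x ∈ M) (hc : (symmDiff (nb G N x) S).card ≤ 1) (hy : y ∈ symmDiff (nb G N x) S) :
    bl G M N S x = Sum.inl y := by
  have h : ∃ y, symmDiff (nb G N x) S = {y} := by
    rw [← card_eq_one]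
    have : 0 < (symmDiff (nb G N x) S).card := card_pos.2 ⟨y, hy⟩
    omega
  unfold bl
  rw [if_pos hx, dif_pos h]
  have h1 := h.choose_spec
  rw [h1, mem_singleton] at hy
  rw [← hy]

theorem bip_stmt (hA : AttachStmt) (hL : LinearStmt) : BipStmt := by
  obtain ⟨BA, hBA⟩ := hA
  obtain ⟨BL, hBL⟩ := hL
  refine ⟨BL (BA 0 1 (Fintype.card (Bool × Bool))) 1 2, ?_⟩
  intro V G M N hd hM hN hrow
  apply hBL V G _ 1 2 (M ∪ N) (lev G M N)
  · intro t
    have h := nt_le_of_label (G := G) (R := M ∪ N)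
      (A := (M ∪ N).filter (fun x => lev G M N x ≤ t)) ({()} : Finset Unit) (fun _ => ())
      (fun _ _ _ => by simp) (fun x hx y hy hnx hny _ => by
        rw [on_prefix hd hM hN hrow t x hx hnx, on_prefix hd hM hN hrow t y hy hny])
    simpa using h
  · intro t
    have h := nt_le_of_label (G := G) (R := M ∪ N)
      (A := (M ∪ N).filter (fun x => lev G M N x = t)) (univ : Finset Bool)
      (fun x => decide (x ∈ M)) (fun _ _ _ => mem_univ _) (fun x hx y hy hnx hny hl => by
        rw [mem_filter] at hx hy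
        have hl' : x ∈ M ↔ y ∈ M := by simpa using hl
        by_cases hxM : x ∈ M
        · rw [on_level_M hd hM hrow t x hxM hx.2, on_level_M hd hM hrow t y (hl'.1 hxM) hy.2]
        · have hxN : x ∈ N := (mem_union.1 hx.1).resolve_left hxM
          have hyN : y ∈ N := (mem_union.1 hy.1).resolve_left (fun h => hxM (hl'.2 h))
          rw [on_level_N hd hN hrow t x hxN hx.2 hnx, on_level_N hd hN hrow t y hyN hy.2 hny])
    simpa using h
  · intro t
    obtain ⟨W, hW⟩ : ∃ W, W = (M ∪ N).filter (fun x => lev G M N x = t) := ⟨_, rfl⟩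
    rw [← hW]
    have hWm : ∀ x ∈ W, (x ∈ M ∨ x ∈ N) ∧ lev G M N x = t := by
      intro x hx
      rw [hW, mem_filter, mem_union] at hx
      exact hx
    obtain ⟨S, hS⟩ := comb (M.filter (fun x => lev G M N x = t)) (fun m => nb G N m) t
      (fun m hm => by
        rw [mem_filter] at hm
        rw [← lev_M hm.1]; exact hm.2)
      (fun m hm m' hm' => by
        rw [mem_filter] at hm hm'
        by_contra h
        have h1 := hrow m hm.1 m' hm'.1 (by omega)
        have e1 : (nb G N m).card = t := by rw [← lev_M hm.1]; exact hm.2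
        have e2 : (nb G N m').card = t := by rw [← lev_M hm'.1]; exact hm'.2
        have h2 : nb G N m' = nb G N m := eq_of_subset_of_card_le h1 (by rw [e1, e2])
        apply h
        rw [h2, sdiff_self]
        simp)
    have hMN : ∀ m ∈ W, ∀ n ∈ W, m ∈ M → n ∈ N → bl G M N S m ≠ bl G M N S n →
        (G.Adj m n ↔ n ∈ S) := by
      intro m hmW n hnW hm hn hb
      have hc := hS m (mem_filter.2 ⟨hm, (hWm m hmW).2⟩)
      have hns : n ∉ symmDiff (nb G N m) S := by
        intro h
        apply hb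
        rw [bl_M hm hc h, bl_N hd hn]
      rw [mem_symmDiff, mem_nb] at hns
      tauto
    have h := hBA V G (Bool × Bool) (V ⊕ V) 0 1 ∅ W (fun x => (decide (x ∈ M), decide (x ∈ S)))
      (fun p q => (p.1 = true ∧ q.1 = false ∧ q.2 = true) ∨
        (p.1 = false ∧ q.1 = true ∧ p.2 = true)) (bl G M N S) BD.empty (by simp) ?_ ?_
    · rwa [empty_union] at h
    · intro x _
      apply BD.cograph
      rw [empty_union]
      have hN1 : ∀ u, (u ∈ W ∧ bl G M N S u = bl G M N S x) →
          ∀ w, (w ∈ W ∧ bl G M N S w = bl G M N S x) → G.Adj u w →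
          bl G M N S x = Sum.inl u ∨ bl G M N S x = Sum.inl w := by
        intro u hu w hw huw
        rcases (hWm u hu.1).1 with h1 | h1
        · rcases (hWm w hw.1).1 with h2 | h2
          · exact absurd huw (hM u h1 w h2)
          · right; rw [← hw.2, bl_N hd h2]
        · left; rw [← hu.2, bl_N hd h1]
      intro a ha b hb c hc d hd' hac had hbd hab hbc hcd
      simp only [mem_filter] at ha hb hc hd'
      exfalso
      have hbc' : b ≠ c := hbc.ne
      rcases hN1 a ha b hb hab with h1 | h1 <;> rcases hN1 c hc d hd' hcd with h2 | h2 <;>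
        (rw [h1] at h2; have h3 := Sum.inl_injective h2)
      · exact hac h3
      · exact had h3
      · exact hbc' h3
      · exact hbd h3
    · intro x hx y hy hb
      rw [empty_union] at hy
      have hx1 := (hWm x hx).1
      have hy1 := (hWm y hy).1
      by_cases hxM : x ∈ M
      · by_cases hyM : y ∈ M
        · have := hM x hxM y hyM
          simp [hxM, hyM, this]
        · have hyN : y ∈ N := hy1.resolve_left hyM
          rw [hMN x hx y hy hxM hyN hb]
          simp [hxM, hyM]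
      · have hxN : x ∈ N := hx1.resolve_left hxM
        by_cases hyM : y ∈ M
        · rw [G.adj_comm, hMN y hy x hx hyM hxN hb.symm]
          simp [hxM, hyM]
        · have hyN : y ∈ N := hy1.resolve_left hyM
          have := hN x hxN y hyN
          simp [hxM, hyM, this]

end Pool.Agent.H837R2.GP
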